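import Mathlib
import Pool.Agent.H79.KZ.Interior

/-!
# The number of representations of `n` by `x² + y² - z²` with all squares at most `n`

Ke Zhao's conjecture (a question of Erdős) says that every sufficiently large `n` is representable
as `x² + y² - z²` with all three squares at most `n`. The library proves it. Here we count: the
number of these representations is `n ^ (1/2 + o(1))`, and the lower bound holds already for the
representations whose squares are all at most `n - n ^ (1 - ε)`.

The library's proof by contradiction shows that without a representation all partial quotients at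
alternate places are even for all reduced quadratic irrationals of discriminant `4n`. If there are
few representations, there are few bad reduced pairs, hence few reduced pairs whose expansion
meets a bad pair in its first `O(log n)` steps; for all others the first `O(log n)` partial
quotients obey the parity rule, and such numbers lie close to numbers all of whose partial quotients
obey it.
-/

set_option autoImplicit false

open Filter Topology

namespace Pool.Agent.Results.MP_5632c9_nt.RepresentationCount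

/-- the integer solutions of `n = x² + y² - z²` with all three squares at most `T` -/
def Representations (n : ℕ) (T : ℝ) : Set (ℤ × ℤ × ℤ) :=
  {(x, y, z) | (n : ℤ) = x ^ 2 + y ^ 2 - z ^ 2 ∧
    (x : ℝ) ^ 2 ≤ T ∧ (y : ℝ) ^ 2 ≤ T ∧ (z : ℝ) ^ 2 ≤ T}

theorem result :
    (∀ n : ℕ, (Representations n n).Finite) ∧
    (∀ ε : ℝ, 0 < ε → ∃ N : ℕ, ∀ n : ℕ, N ≤ n →
      (n : ℝ) ^ (1 / 2 - ε) ≤ ((Representations n (n - (n : ℝ) ^ (1 - ε))).ncard : ℝ) ∧
      ((Representations n n).ncard : ℝ) ≤ (n : ℝ) ^ (1 / 2 + ε)) ∧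
    Tendsto (fun n : ℕ => Real.log (Representations n n).ncard / Real.log n) atTop
      (𝓝 (1 / 2)) := by
  have hR : ∀ n : ℕ, Representations n n = Pool.Agent.H79.KZ.reps n := by
    intro n
    ext ⟨x, y, z⟩
    have key : ∀ a : ℤ, (a : ℝ) ^ 2 ≤ (n : ℝ) ↔ a ^ 2 ≤ (n : ℤ) := by
      intro a
      constructor
      · intro h; exact_mod_cast h
      · intro h; exact_mod_cast h
    show ((n : ℤ) = x ^ 2 + y ^ 2 - z ^ 2 ∧ (x : ℝ) ^ 2 ≤ (n : ℝ) ∧ (y : ℝ) ^ 2 ≤ (n : ℝ) ∧
      (z : ℝ) ^ 2 ≤ (n : ℝ)) ↔ ((n : ℤ) = x ^ 2 + y ^ 2 - z ^ 2 ∧ x ^ 2 ≤ (n : ℤ) ∧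
      y ^ 2 ≤ (n : ℤ) ∧ z ^ 2 ≤ (n : ℤ))
    rw [key x, key y, key z]
  have hI : ∀ (n : ℕ) (T : ℝ), Representations n (n - T) = Pool.Agent.H79.KZ.inner n T := by
    intro n T
    ext ⟨x, y, z⟩
    rfl
  have hmain := Pool.Agent.H79.KZ.count_asymp
  have hinner := Pool.Agent.H79.KZ.inner_all
  simp_rw [← hR] at hmain
  refine ⟨fun n => by rw [hR]; exact Pool.Agent.H79.KZ.reps_finite n, ?_, ?_⟩
  · intro ε hε
    obtain ⟨N1, hN1⟩ := hmain ε hε
    obtain ⟨N2, hN2⟩ := hinner ε hε
    refine ⟨max N1 N2, fun n hn => ?_⟩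
    rw [hI]
    exact ⟨hN2 n (le_trans (le_max_right _ _) hn), (hN1 n (le_trans (le_max_left _ _) hn)).2⟩
  rw [Metric.tendsto_atTop]
  intro ε hε
  obtain ⟨N, hN⟩ := hmain (ε / 2) (by positivity)
  refine ⟨max N 2, fun n hn => ?_⟩
  have hn1 : N ≤ n := le_trans (le_max_left _ _) hn
  have hn2 : 2 ≤ n := le_trans (le_max_right _ _) hn
  obtain ⟨h1, h2⟩ := hN n hn1
  have hn1' : (1 : ℝ) < n := by exact_mod_cast (by omega : 1 < n)
  have hn0 : (0 : ℝ) < n := by linarith
  have hlog : 0 < Real.log n := Real.log_pos hn1'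
  have hp1 : 0 < (n : ℝ) ^ (1 / 2 - ε / 2) := Real.rpow_pos_of_pos hn0 _
  have hpos : (0 : ℝ) < ((Representations n n).ncard : ℝ) := lt_of_lt_of_le hp1 h1
  have k1 := Real.log_le_log hp1 h1
  have k2 := Real.log_le_log hpos h2
  rw [Real.log_rpow hn0] at k1 k2
  rw [Real.dist_eq, abs_lt]
  constructor
  · have : 1 / 2 - ε / 2 ≤ Real.log (Representations n n).ncard / Real.log n := by
      rw [le_div_iff₀ hlog]; exact k1
    linarith
  · have : Real.log (Representations n n).ncard / Real.log n ≤ 1 / 2 + ε / 2 := by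
      rw [div_le_iff₀ hlog]; exact k2
    linarith

end Pool.Agent.Results.MP_5632c9_nt.RepresentationCount
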